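import Mathlib

set_option autoImplicit false

namespace Pool.Agent.Results.MP_570618_gt.EberleinImages

open Set Filter Topology

universe u v w

/-- `C_p(X)`: the set of continuous functions `X → ℝ`, with the topology of pointwise convergence
(as a subspace of the product `X → ℝ`). -/
abbrev Cp (X : Type u) [TopologicalSpace X] : Type u := {f : X → ℝ // Continuous f}

/-- `X` is Eberlein compact: it is homeomorphic to a weakly compact subset of a Banach space. -/
def EberleinCompact (X : Type) [TopologicalSpace X] : Prop :=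
  ∃ (E : Type) (_ : NormedAddCommGroup E) (_ : NormedSpace ℝ E) (_ : CompleteSpace E)
    (K : Set (WeakSpace ℝ E)), IsCompact K ∧ Nonempty (X ≃ₜ K)

/-- `Z` has countable tightness. -/
def CountablyTight (Z : Type u) [TopologicalSpace Z] : Prop :=
  ∀ (A : Set Z), ∀ z ∈ closure A, ∃ A' : Set Z, A' ⊆ A ∧ A'.Countable ∧ z ∈ closure A'

/-- `Z` is sequential: every subset that contains the limits of all its convergent sequences is
closed. -/
def Sequential (Z : Type u) [TopologicalSpace Z] : Prop :=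
  ∀ A : Set Z, (∀ (x : ℕ → Z) (z : Z), (∀ n, x n ∈ A) → Tendsto x atTop (𝓝 z) → z ∈ A) → IsClosed A

/-- `N` is a network of the space `W`. -/
def IsNetwork {W : Type u} [TopologicalSpace W] (N : Set (Set W)) : Prop :=
  ∀ (x : W) (U : Set W), IsOpen U → x ∈ U → ∃ M ∈ N, x ∈ M ∧ M ⊆ U

/-- `Z` is monolithic: the network weight of the closure of any infinite set `A` is at most the
cardinality of `A`. -/
def Monolithic (Z : Type u) [TopologicalSpace Z] : Prop :=
  ∀ A : Set Z, A.Infinite → ∃ N : Set (Set (closure A)), IsNetwork N ∧ Cardinal.mk N ≤ Cardinal.mk A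

section partA

theorem cont_OP {D : Type} [TopologicalSpace D] [DiscreteTopology D] (u : OnePoint D → ℝ)
    (hu : ∀ ε > 0, {k : D | ε ≤ |u k - u OnePoint.infty|}.Finite) : Continuous u := by
  rw [OnePoint.continuous_iff_from_discrete, Metric.tendsto_nhds]
  intro ε hε
  rw [Filter.eventually_cofinite]
  apply (hu ε hε).subset
  intro k hk
  have hk' : ¬ dist (u k) (u OnePoint.infty) < ε := hk
  rw [Real.dist_eq, not_lt] at hk'
  exact hk'

theorem eberlein_OP (D : Type) [TopologicalSpace D] [DiscreteTopology D] :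
    EberleinCompact (OnePoint D) := by
  classical
  let E := lp (fun _ : D => ℝ) 2
  let e : D → E := fun d => lp.single 2 d (1:ℝ)
  let g0 : OnePoint D → E := fun x => OnePoint.elim x (0 : E) e
  let g : OnePoint D → WeakSpace ℝ E := fun x => toWeakSpace ℝ E (g0 x)
  have hev : ∀ φ : E →L[ℝ] ℝ, ∃ v : E, ∀ d, φ (e d) = v d := by
    intro φ
    refine ⟨(InnerProductSpace.toDual ℝ E).symm φ, fun d => ?_⟩
    have h1 : φ (e d) = inner ℝ ((InnerProductSpace.toDual ℝ E).symm φ) (e d) := by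
      rw [InnerProductSpace.toDual_symm_apply]
    rw [h1]
    rw [lp.inner_single_right]
    simp
  have hcont : Continuous g := by
    apply WeakBilin.continuous_of_continuous_eval
    intro φ
    show Continuous (fun x => φ (g0 x))
    apply cont_OP
    intro ε hε
    obtain ⟨v, hv⟩ := hev φ
    have hsum : Summable (fun d => ‖v d‖ ^ (2:ENNReal).toReal) := (lp.memℓp v).summable (by norm_num)
    have hlim := hsum.tendsto_cofinite_zero
    have h2 := hlim.eventually (gt_mem_nhds (show (0:ℝ) < ε ^ (2:ENNReal).toReal by positivity))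
    rw [Filter.eventually_cofinite] at h2
    refine h2.subset ?_
    intro d hd
    have hd' : ε ≤ |φ (e d) - φ 0| := hd
    rw [map_zero, sub_zero, hv d] at hd'
    show ¬ (‖v d‖ ^ (2:ENNReal).toReal < ε ^ (2:ENNReal).toReal)
    rw [not_lt]
    apply Real.rpow_le_rpow hε.le
    · rw [Real.norm_eq_abs]; exact hd'
    · norm_num
  have hinj : Function.Injective g := by
    intro x y hxy
    have hxy' : g0 x = g0 y := (toWeakSpace ℝ E).injective hxy
    induction x using OnePoint.rec with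
    | infty =>
      induction y using OnePoint.rec with
      | infty => rfl
      | coe b =>
        exfalso
        have h1 : (0 : E) = e b := hxy'
        have h2 : (0 : E) b = e b b := by rw [h1]
        simp [e] at h2
    | coe a =>
      induction y using OnePoint.rec with
      | infty =>
        exfalso
        have h1 : e a = (0 : E) := hxy'
        have h2 : e a a = (0 : E) a := by rw [h1]
        simp [e] at h2
      | coe b =>
        have h1 : e a = e b := hxy'
        by_contra hne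
        have hab : a ≠ b := fun h => hne (by rw [h])
        have h2 : e a a = e b a := by rw [h1]
        simp [e, hab] at h2
  have hemb : IsClosedEmbedding g := hcont.isClosedEmbedding hinj
  exact ⟨E, inferInstance, inferInstance, inferInstance, Set.range g, isCompact_range hcont,
    ⟨hemb.toIsEmbedding.toHomeomorph⟩⟩

end partA

section partB

/-- abstract data of an uncountable well ordered set with countable initial segments -/
theorem exists_Om : ∃ (Ω : Type) (_ : LinearOrder Ω) (_ : WellFoundedLT Ω), (∀ β : Ω, (Set.Iic β).Countable) ∧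
    Cardinal.mk Ω = Cardinal.aleph 1 := by
  refine ⟨(Cardinal.aleph 1).ord.ToType, inferInstance, inferInstance, ?_, ?_⟩
  · intro β
    have h1 : Cardinal.mk (Set.Iio β) < Cardinal.aleph 1 := Cardinal.mk_Iio_ord_toType β
    have h2 : (Set.Iio β).Countable := by
      rw [← Cardinal.le_aleph0_iff_set_countable]
      have h1' : Cardinal.mk (Set.Iio β) < Order.succ Cardinal.aleph0 := by
        rw [Cardinal.succ_aleph0]; exact h1
      exact Order.lt_succ_iff.1 h1'
    have : Set.Iic β = insert β (Set.Iio β) := by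
      ext x; simp [le_iff_eq_or_lt]
    rw [this]
    exact h2.insert β
  · exact Cardinal.mk_ord_toType _

variable {Ω : Type} [LinearOrder Ω] (hΩ : ∀ β : Ω, (Set.Iic β).Countable) {I κ : Type}

open Classical in
/-- the functions -/
noncomputable def ss (e : Ω → Ω → ℕ) (r : I → Ω) (i : I) (x : OnePoint (Ω ⊕ I)) : ℝ :=
  OnePoint.elim x 0 (Sum.elim (fun η => if η < r i then 1 / ((e (r i) η : ℝ) + 1) else 0)
    (fun j => if j = i then 1 else 0))

theorem ss_infty (e : Ω → Ω → ℕ) (r : I → Ω) (i : I) : ss e r i OnePoint.infty = 0 := rfl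

open Classical in
theorem ss_inl (e : Ω → Ω → ℕ) (r : I → Ω) (i : I) (η : Ω) :
    ss e r i ((Sum.inl η : Ω ⊕ I) : OnePoint (Ω ⊕ I)) = if η < r i then 1 / ((e (r i) η : ℝ) + 1) else 0 := rfl

open Classical in
theorem ss_inr (e : Ω → Ω → ℕ) (r : I → Ω) (i j : I) :
    ss e r i ((Sum.inr j : Ω ⊕ I) : OnePoint (Ω ⊕ I)) = if j = i then 1 else 0 := rfl

theorem ss_cont [TopologicalSpace (Ω ⊕ I)] [DiscreteTopology (Ω ⊕ I)] (e : Ω → Ω → ℕ)
    (he : ∀ γ : Ω, Set.InjOn (e γ) (Set.Iic γ)) (r : I → Ω) (i : I) : Continuous (ss e r i) := by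
  apply cont_OP
  intro ε hε
  obtain ⟨N, hN⟩ := exists_nat_one_div_lt hε
  have h1 : {k : Ω ⊕ I | ε ≤ |ss e r i k - ss e r i OnePoint.infty|} ⊆
      Sum.inl '' {η : Ω | η ≤ r i ∧ e (r i) η ≤ N} ∪ {Sum.inr i} := by
    intro k hk
    have hk' : ε ≤ |ss e r i k - ss e r i OnePoint.infty| := hk
    rw [ss_infty, sub_zero] at hk'
    rcases k with η | j
    · left
      rw [ss_inl] at hk'
      split_ifs at hk' with h
      · refine ⟨η, ⟨h.le, ?_⟩, rfl⟩
        by_contra hcon
        push Not at hcon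
        have h2 : (N : ℝ) + 1 ≤ (e (r i) η : ℝ) + 1 := by
          have : (N : ℝ) ≤ (e (r i) η : ℝ) := by exact_mod_cast hcon.le
          linarith
        have h3 : 1 / ((e (r i) η : ℝ) + 1) ≤ 1 / ((N : ℝ) + 1) :=
          one_div_le_one_div_of_le (by positivity) h2
        rw [abs_of_nonneg (by positivity)] at hk'
        linarith
      · rw [abs_zero] at hk'; linarith
    · right
      rw [ss_inr] at hk'
      split_ifs at hk' with h
      · rw [h]; rfl
      · rw [abs_zero] at hk'; linarith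
  refine Set.Finite.subset ?_ h1
  refine (Set.Finite.image _ ?_).union (Set.finite_singleton _)
  refine Set.Finite.of_finite_image (f := e (r i)) ((Set.finite_Iic N).subset ?_) ?_
  · rintro _ ⟨η, hη, rfl⟩
    exact hη.2
  · intro a ha b hb hab
    exact he (r i) ha.1 hb.1 hab

/-- a countable set of elements has an upper bound -/
theorem exists_bound (hΩ : ∀ β : Ω, (Set.Iic β).Countable) (hunc : ¬ (Set.univ : Set Ω).Countable)
    (T : Set Ω) (hT : T.Countable) : ∃ β : Ω, ∀ t ∈ T, t < β := by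
  have h1 : (⋃ t ∈ T, Set.Iic t).Countable := hT.biUnion fun t _ => hΩ t
  by_contra hcon
  push Not at hcon
  apply hunc
  apply h1.mono
  intro β _
  obtain ⟨t, ht, hβ⟩ := hcon β
  exact Set.mem_iUnion₂.2 ⟨t, ht, hβ⟩

/-- the dense subspace -/
def SD [TopologicalSpace (Ω ⊕ I)] (e : Ω → Ω → ℕ) (r : I → Ω) : Set (Cp (OnePoint (Ω ⊕ I))) :=
  {f | Irrational (f.1 OnePoint.infty) ∨ (∃ i, f.1 = ss e r i) ∨ f.1 = fun _ => 1}

theorem SD_dense [TopologicalSpace (Ω ⊕ I)] (e : Ω → Ω → ℕ) (r : I → Ω) : Dense (SD (I := I) e r) := by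
  intro f
  let G : ℝ → Cp (OnePoint (Ω ⊕ I)) := fun c => ⟨fun x => f.1 x + c, f.2.add continuous_const⟩
  have hG : Continuous G := by
    apply Continuous.subtype_mk
    apply continuous_pi
    intro x
    exact continuous_const.add continuous_id
  have h0 : G 0 = f := by
    apply Subtype.ext
    funext x
    show f.1 x + 0 = f.1 x
    ring
  rw [← h0]
  have hdense : Dense {c : ℝ | Irrational (f.1 OnePoint.infty + c)} := by
    have h1 : Dense {x : ℝ | Irrational x} := dense_irrational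
    have h2 := (Homeomorph.addLeft (f.1 OnePoint.infty)).isOpenMap.preimage_closure_subset_closure_preimage (s := {x : ℝ | Irrational x})
    intro c
    apply h2
    exact h1 _
  have h3 : (0 : ℝ) ∈ closure {c : ℝ | Irrational (f.1 OnePoint.infty + c)} := hdense 0
  refine closure_mono ?_ (image_closure_subset_closure_image hG ⟨0, h3, rfl⟩)
  rintro _ ⟨c, hc, rfl⟩
  left
  exact hc

/-- the key separation -/
theorem exists_F [TopologicalSpace (Ω ⊕ I)] [DiscreteTopology (Ω ⊕ I)]
    (hΩ : ∀ β : Ω, (Set.Iic β).Countable) (hunc : ¬ (Set.univ : Set Ω).Countable) (e : Ω → Ω → ℕ)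
    (r : I → Ω) (hr : Function.Injective r)
    (V : Set I) (hV : V.Countable) : ∃ F : SD (I := I) e r → ℝ, Continuous F ∧
      (∀ f : SD (I := I) e r, ∀ i, f.1.1 = ss e r i → i ∈ V → F f = 0) ∧
      (∀ f : SD (I := I) e r, ∀ i, f.1.1 = ss e r i → i ∉ V → F f = 1) ∧
      (∀ f : SD (I := I) e r, (f.1.1 = fun _ => 1) → F f = 1) := by
  classical
  obtain ⟨β, hβ⟩ := exists_bound hΩ hunc (r '' V) (hV.image r)
  let C : Set I := {i | r i ≤ β}
  have hC : C.Countable := (hΩ β).preimage_of_injOn hr.injOn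
  let A : Set (OnePoint (Ω ⊕ I)) := {OnePoint.infty} ∪ {((Sum.inl β : Ω ⊕ I) : OnePoint (Ω ⊕ I))} ∪
    (fun i : I => ((Sum.inr i : Ω ⊕ I) : OnePoint (Ω ⊕ I))) '' C
  have hA : A.Countable := ((Set.countable_singleton _).union (Set.countable_singleton _)).union (hC.image _)
  have : Countable A := hA.to_subtype
  let a0 : A := ⟨OnePoint.infty, Or.inl (Or.inl rfl)⟩
  let a1 : A := ⟨((Sum.inl β : Ω ⊕ I) : OnePoint (Ω ⊕ I)), Or.inl (Or.inr rfl)⟩
  let π : SD (I := I) e r → (A → ℝ) := fun f a => f.1.1 a.1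
  have hπ : Continuous π := by
    apply continuous_pi
    intro a
    exact (continuous_apply a.1).comp (continuous_subtype_val.comp continuous_subtype_val)
  let T' := Set.range π
  let π' : SD (I := I) e r → T' := Set.rangeFactorization π
  have hπ' : Continuous π' := hπ.subtype_mk _
  let P : Set T' := {y | ∃ f : SD (I := I) e r, (∃ i ∈ V, f.1.1 = ss e r i) ∧ y = π' f}
  let Q : Set T' := {y | ∃ f : SD (I := I) e r, ((∃ i, i ∉ V ∧ f.1.1 = ss e r i) ∨ f.1.1 = fun _ => 1) ∧ y = π' f}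
  have hdisj : Disjoint (closure P) (closure Q) := by
    rw [Set.disjoint_left]
    rintro ⟨y, f, rfl⟩ hyP hyQ
    have hev : ∀ a : A, Continuous (fun y : T' => y.1 a) := fun a =>
      (continuous_apply a).comp continuous_subtype_val
    -- value at infinity
    have h0 : f.1.1 OnePoint.infty = 0 := by
      have hcl : IsClosed {y : T' | y.1 a0 = 0} := isClosed_eq (hev a0) continuous_const
      have : P ⊆ {y : T' | y.1 a0 = 0} := by
        rintro _ ⟨f, ⟨i, _, hf⟩, rfl⟩
        show f.1.1 OnePoint.infty = 0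
        rw [hf]; rfl
      exact (closure_minimal this hcl) hyP
    -- f is one of the functions ss
    obtain ⟨j, hj⟩ : ∃ j, f.1.1 = ss e r j := by
      rcases f.2 with h | h | h
      · exfalso
        rw [h0] at h
        exact not_irrational_zero h
      · exact h
      · exfalso
        rw [h] at h0
        exact one_ne_zero h0
    -- j ∈ C
    have hjC : j ∈ C := by
      have hcl : IsClosed {y : T' | y.1 a1 = 0} := isClosed_eq (hev a1) continuous_const
      have : P ⊆ {y : T' | y.1 a1 = 0} := by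
        rintro _ ⟨f, ⟨i, hi, hf⟩, rfl⟩
        show f.1.1 ((Sum.inl β : Ω ⊕ I) : OnePoint (Ω ⊕ I)) = 0
        rw [hf, ss_inl, if_neg]
        exact not_lt.2 (hβ _ ⟨i, hi, rfl⟩).le
      have h1 : f.1.1 ((Sum.inl β : Ω ⊕ I) : OnePoint (Ω ⊕ I)) = 0 := (closure_minimal this hcl) hyP
      show r j ≤ β
      by_contra hcon
      push Not at hcon
      rw [hj, ss_inl, if_pos hcon] at h1
      have : (0:ℝ) < 1 / ((e (r j) β : ℝ) + 1) := by positivity
      linarith
    let a2 : A := ⟨((Sum.inr j : Ω ⊕ I) : OnePoint (Ω ⊕ I)), Or.inr ⟨j, hjC, rfl⟩⟩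
    have hy2 : f.1.1 ((Sum.inr j : Ω ⊕ I) : OnePoint (Ω ⊕ I)) = 1 := by
      rw [hj, ss_inr, if_pos rfl]
    have hop1 : IsOpen {y : T' | (1/2:ℝ) < y.1 a2} := isOpen_lt continuous_const (hev a2)
    have hop0 : IsOpen {y : T' | y.1 a0 < (1/2:ℝ)} := isOpen_lt (hev a0) continuous_const
    have hm1 : (⟨π f, ⟨f, rfl⟩⟩ : T') ∈ {y : T' | (1/2:ℝ) < y.1 a2} := by
      show (1/2:ℝ) < f.1.1 ((Sum.inr j : Ω ⊕ I) : OnePoint (Ω ⊕ I))
      rw [hy2]; norm_num
    have hm0 : (⟨π f, ⟨f, rfl⟩⟩ : T') ∈ {y : T' | y.1 a0 < (1/2:ℝ)} := by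
      show f.1.1 OnePoint.infty < (1/2:ℝ)
      rw [h0]; norm_num
    have hkey : ∀ i, (1/2:ℝ) < ss e r i ((Sum.inr j : Ω ⊕ I) : OnePoint (Ω ⊕ I)) → j = i := by
      intro i h
      rw [ss_inr] at h
      by_contra hne
      rw [if_neg hne] at h
      linarith
    obtain ⟨_, hy', ⟨f1, ⟨i1, hi1, hf1⟩, rfl⟩⟩ := mem_closure_iff.1 hyP _ hop1 hm1
    obtain ⟨_, ⟨hy'', hy0⟩, ⟨f2, hf2, rfl⟩⟩ := mem_closure_iff.1 hyQ _ (hop1.inter hop0) ⟨hm1, hm0⟩
    have hjV : j ∈ V := by
      have h3 : (1/2:ℝ) < f1.1.1 ((Sum.inr j : Ω ⊕ I) : OnePoint (Ω ⊕ I)) := hy'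
      rw [hf1] at h3
      rw [hkey i1 h3]; exact hi1
    rcases hf2 with ⟨i2, hi2, hf2⟩ | hf2
    · have h3 : (1/2:ℝ) < f2.1.1 ((Sum.inr j : Ω ⊕ I) : OnePoint (Ω ⊕ I)) := hy''
      rw [hf2] at h3
      rw [hkey i2 h3] at hjV
      exact hi2 hjV
    · have h3 : f2.1.1 OnePoint.infty < (1/2:ℝ) := hy0
      rw [hf2] at h3
      norm_num at h3
  have hT4 : NormalSpace T' := inferInstance
  obtain ⟨F, hF0, hF1, _⟩ := exists_continuous_zero_one_of_isClosed (isClosed_closure (s := P))
    (isClosed_closure (s := Q)) hdisj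
  refine ⟨fun f => F (π' f), F.continuous.comp hπ', ?_, ?_, ?_⟩
  · intro f i hf hi
    exact hF0 (subset_closure ⟨f, ⟨i, hi, hf⟩, rfl⟩)
  · intro f i hf hi
    exact hF1 (subset_closure ⟨f, Or.inl ⟨i, hi, hf⟩, rfl⟩)
  · intro f hf
    exact hF1 (subset_closure ⟨f, Or.inr hf, rfl⟩)

end partB

section partC

/-- initial segment of length `n` -/
def pre (x : ℕ → Bool) (n : ℕ) : List Bool := (List.range n).map x

theorem pre_inj {x y : ℕ → Bool} {n m : ℕ} (h : pre x n = pre y m) : n = m ∧ ∀ i < n, x i = y i := by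
  have h1 : n = m := by
    have := congrArg List.length h
    simpa [pre] using this
  subst h1
  refine ⟨rfl, fun i hi => ?_⟩
  have h2 : (pre x n)[i]? = (pre y n)[i]? := by rw [h]
  simp only [pre, List.getElem?_map, List.getElem?_range hi, Option.map_some] at h2
  exact Option.some.inj h2

variable {Ω : Type} [LinearOrder Ω]

abbrev II (Ω : Type) : Type := Ω ⊕ (List Bool ⊕ Ω)

/-- the countable sets -/
def VV (ι : Ω → (ℕ → Bool)) : II Ω → Set (II Ω)
  | Sum.inl β => Sum.inl '' Set.Iic β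
  | Sum.inr (Sum.inl l) => {Sum.inr (Sum.inl l)}
  | Sum.inr (Sum.inr ξ) => insert (Sum.inr (Sum.inr ξ)) (Set.range fun n => Sum.inr (Sum.inl (pre (ι ξ) n)))

theorem VV_countable (hΩ : ∀ β : Ω, (Set.Iic β).Countable) (ι : Ω → (ℕ → Bool)) (k : II Ω) :
    (VV ι k).Countable := by
  rcases k with β | l | ξ
  · exact (hΩ β).image _
  · exact Set.countable_singleton _
  · exact (Set.countable_range _).insert _

open Classical in
/-- the points of the compact set -/
noncomputable def vv (ι : Ω → (ℕ → Bool)) (i : II Ω) : II Ω → ℝ := fun k => if i ∈ VV ι k then 0 else 1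

open Classical in
theorem vv_zero {ι : Ω → (ℕ → Bool)} {i k : II Ω} : vv ι i k = 0 ↔ i ∈ VV ι k := by
  unfold vv
  split_ifs with h
  · simp [h]
  · simp [h]

open Classical in
theorem vv_one {ι : Ω → (ℕ → Bool)} {i k : II Ω} : vv ι i k = 1 ↔ i ∉ VV ι k := by
  unfold vv
  split_ifs with h
  · simp [h]
  · simp [h]

theorem vv_01 (ι : Ω → (ℕ → Bool)) (i k : II Ω) : vv ι i k = 0 ∨ vv ι i k = 1 := by
  rw [vv_zero, vv_one]
  exact em _

theorem mem_inl {ι : Ω → (ℕ → Bool)} {α β : Ω} : (Sum.inl α : II Ω) ∈ VV ι (Sum.inl β) ↔ α ≤ β := by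
  constructor
  · rintro ⟨a, ha, h⟩
    rw [← Sum.inl_injective h]; exact ha
  · intro h
    exact ⟨α, h, rfl⟩

theorem mem_inl' {ι : Ω → (ℕ → Bool)} {α : Ω} {k : List Bool ⊕ Ω} :
    (Sum.inl α : II Ω) ∉ VV ι (Sum.inr k) := by
  rcases k with l | ξ
  · intro h
    have h' : (Sum.inl α : II Ω) = Sum.inr (Sum.inl l) := h
    cases h'
  · rintro (h | ⟨n, h⟩)
    · cases h
    · cases h

theorem mem_inr {ι : Ω → (ℕ → Bool)} {β : Ω} {k : List Bool ⊕ Ω} :
    (Sum.inr k : II Ω) ∉ VV ι (Sum.inl β) := by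
  rintro ⟨a, _, h⟩
  cases h

theorem closed_inl [WellFoundedLT Ω] (ι : Ω → (ℕ → Bool)) (β : Ω) :
    IsClosed (vv ι '' VV ι (Sum.inl β)) := by
  rw [← closure_subset_iff_isClosed]
  intro y hy
  have h01 : ∀ k, y k = 0 ∨ y k = 1 := by
    intro k
    have hcl : IsClosed {y : II Ω → ℝ | y k = 0 ∨ y k = 1} :=
      (isClosed_eq (continuous_apply k) continuous_const).union (isClosed_eq (continuous_apply k) continuous_const)
    refine closure_minimal ?_ hcl hy
    rintro _ ⟨i, _, rfl⟩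
    exact vv_01 ι i k
  have hβ : y (Sum.inl β) = 0 := by
    have hcl : IsClosed {y : II Ω → ℝ | y (Sum.inl β) = 0} := isClosed_eq (continuous_apply _) continuous_const
    refine closure_minimal ?_ hcl hy
    rintro _ ⟨i, hi, rfl⟩
    exact vv_zero.2 hi
  have hmono : ∀ γ δ : Ω, γ ≤ δ → y (Sum.inl δ) ≤ y (Sum.inl γ) := by
    intro γ δ hγδ
    have hcl : IsClosed {y : II Ω → ℝ | y (Sum.inl δ) ≤ y (Sum.inl γ)} := isClosed_le (continuous_apply _) (continuous_apply _)
    refine closure_minimal ?_ hcl hy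
    rintro _ ⟨_, ⟨α, hα, rfl⟩, rfl⟩
    show vv ι (Sum.inl α) (Sum.inl δ) ≤ vv ι (Sum.inl α) (Sum.inl γ)
    by_cases h : α ≤ γ
    · rw [vv_zero.2 (mem_inl.2 h), vv_zero.2 (mem_inl.2 (h.trans hγδ))]
    · rw [vv_one.2 (fun h' => h (mem_inl.1 h'))]
      rcases vv_01 ι (Sum.inl α) (Sum.inl δ) with h | h <;> rw [h]
      norm_num
  have hinr : ∀ k, y (Sum.inr k) = 1 := by
    intro k
    have hcl : IsClosed {y : II Ω → ℝ | y (Sum.inr k) = 1} := isClosed_eq (continuous_apply _) continuous_const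
    refine closure_minimal ?_ hcl hy
    rintro _ ⟨_, ⟨α, hα, rfl⟩, rfl⟩
    exact vv_one.2 mem_inl'
  obtain ⟨α, hα, hmin⟩ := WellFounded.has_min (wellFounded_lt (α := Ω)) {γ : Ω | y (Sum.inl γ) = 0} ⟨β, hβ⟩
  have hα' : y (Sum.inl α) = 0 := hα
  refine ⟨Sum.inl α, mem_inl.2 (not_lt.1 (hmin β hβ)), ?_⟩
  funext k
  rcases k with γ | k
  · by_cases h : α ≤ γ
    · rw [vv_zero.2 (mem_inl.2 h)]
      rcases h01 (Sum.inl γ) with h2 | h2
      · exact h2.symm
      · have := hmono α γ h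
        rw [hα', h2] at this
        linarith
    · rw [vv_one.2 (fun h' => h (mem_inl.1 h'))]
      rcases h01 (Sum.inl γ) with h2 | h2
      · exact absurd (not_le.1 h) (hmin γ h2)
      · exact h2.symm
  · rw [vv_one.2 mem_inl', hinr k]

theorem tend_pre (ι : Ω → (ℕ → Bool)) (hι : Function.Injective ι) (ξ : Ω) :
    Tendsto (fun n => vv ι (Sum.inr (Sum.inl (pre (ι ξ) n)))) atTop (𝓝 (vv ι (Sum.inr (Sum.inr ξ)))) := by
  rw [tendsto_pi_nhds]
  intro k
  apply tendsto_const_nhds.congr'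
  rcases k with β | l | η
  · refine Filter.Eventually.of_forall fun n => ?_
    show vv ι (Sum.inr (Sum.inr ξ)) (Sum.inl β) = vv ι (Sum.inr (Sum.inl (pre (ι ξ) n))) (Sum.inl β)
    rw [vv_one.2 mem_inr, vv_one.2 mem_inr]
  · filter_upwards [eventually_gt_atTop l.length] with n hn
    have h1 : (Sum.inr (Sum.inr ξ) : II Ω) ∉ VV ι (Sum.inr (Sum.inl l)) := by
      intro h
      have h' : (Sum.inr (Sum.inr ξ) : II Ω) = Sum.inr (Sum.inl l) := h
      cases h'
    have h2 : (Sum.inr (Sum.inl (pre (ι ξ) n)) : II Ω) ∉ VV ι (Sum.inr (Sum.inl l)) := by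
      intro h
      have h' : (Sum.inr (Sum.inl (pre (ι ξ) n)) : II Ω) = Sum.inr (Sum.inl l) := h
      have h3 : pre (ι ξ) n = l := Sum.inl_injective (Sum.inr_injective h')
      have h4 : (pre (ι ξ) n).length = n := by simp [pre]
      rw [h3] at h4
      omega
    rw [vv_one.2 h1, vv_one.2 h2]
  · by_cases hηξ : η = ξ
    · subst hηξ
      refine Filter.Eventually.of_forall fun n => ?_
      show vv ι (Sum.inr (Sum.inr η)) (Sum.inr (Sum.inr η)) =
        vv ι (Sum.inr (Sum.inl (pre (ι η) n))) (Sum.inr (Sum.inr η))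
      have h1 : (Sum.inr (Sum.inr η) : II Ω) ∈ VV ι (Sum.inr (Sum.inr η)) := Set.mem_insert _ _
      have h2 : (Sum.inr (Sum.inl (pre (ι η) n)) : II Ω) ∈ VV ι (Sum.inr (Sum.inr η)) :=
        Set.mem_insert_of_mem _ ⟨n, rfl⟩
      rw [vv_zero.2 h1, vv_zero.2 h2]
    · have hne : ι ξ ≠ ι η := fun h => hηξ (hι h).symm
      obtain ⟨i, hi⟩ := Function.ne_iff.1 hne
      filter_upwards [eventually_gt_atTop i] with n hn
      have h1 : (Sum.inr (Sum.inr ξ) : II Ω) ∉ VV ι (Sum.inr (Sum.inr η)) := by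
        rintro (h | ⟨n, h⟩)
        · exact hηξ (Sum.inr_injective (Sum.inr_injective h)).symm
        · cases h
      have h2 : (Sum.inr (Sum.inl (pre (ι ξ) n)) : II Ω) ∉ VV ι (Sum.inr (Sum.inr η)) := by
        rintro (h | ⟨m, h⟩)
        · cases h
        · have h3 : pre (ι η) m = pre (ι ξ) n := Sum.inl_injective (Sum.inr_injective h)
          have h4 := pre_inj h3
          exact hi (h4.2 i (by omega)).symm
      rw [vv_one.2 h1, vv_one.2 h2]

theorem closed_VV [WellFoundedLT Ω] (ι : Ω → (ℕ → Bool)) (hι : Function.Injective ι) (k : II Ω) :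
    IsClosed (vv ι '' VV ι k) := by
  rcases k with β | l | ξ
  · exact closed_inl ι β
  · have : vv ι '' VV ι (Sum.inr (Sum.inl l)) = {vv ι (Sum.inr (Sum.inl l))} := by
      show vv ι '' {Sum.inr (Sum.inl l)} = _
      rw [Set.image_singleton]
    rw [this]
    exact isClosed_singleton
  · have : vv ι '' VV ι (Sum.inr (Sum.inr ξ)) =
        insert (vv ι (Sum.inr (Sum.inr ξ))) (Set.range fun n => vv ι (Sum.inr (Sum.inl (pre (ι ξ) n)))) := by
      show vv ι '' (insert (Sum.inr (Sum.inr ξ)) (Set.range fun n => Sum.inr (Sum.inl (pre (ι ξ) n)))) = _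
      rw [Set.image_insert_eq, ← Set.range_comp]
      rfl
    rw [this]
    exact (tend_pre ι hι ξ).isCompact_insert_range.isClosed

/-- the compact set -/
noncomputable def WW (ι : Ω → (ℕ → Bool)) : Set (II Ω → ℝ) := insert (fun _ => 1) (Set.range (vv ι))

theorem WW_compact [WellFoundedLT Ω] (ι : Ω → (ℕ → Bool)) (hι : Function.Injective ι) :
    IsCompact (WW ι) := by
  have h1 : IsCompact (Set.univ.pi (fun _ : II Ω => ({0, 1} : Set ℝ))) :=
    isCompact_univ_pi (fun _ => (Set.toFinite _).isCompact)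
  have h2 : WW ι ⊆ Set.univ.pi (fun _ : II Ω => ({0, 1} : Set ℝ)) := by
    intro y hy
    rw [Set.mem_univ_pi]
    intro k
    rcases hy with rfl | ⟨i, rfl⟩
    · right; rfl
    · rcases vv_01 ι i k with h | h
      · left; exact h
      · right; exact h
  refine h1.of_isClosed_subset ?_ h2
  rw [← closure_subset_iff_isClosed]
  intro y hy
  by_cases hy1 : ∀ k, y k = 1
  · left; exact funext hy1
  · right
    push Not at hy1
    obtain ⟨k, hk⟩ := hy1
    have h3 : y ∈ closure (vv ι '' VV ι k) := by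
      rw [mem_closure_iff]
      intro O hO hyO
      have hop : IsOpen (O ∩ {y : II Ω → ℝ | y k ≠ 1}) :=
        hO.inter (isOpen_ne_fun (continuous_apply k) continuous_const)
      obtain ⟨z, ⟨hzO, hzk⟩, hzW⟩ := mem_closure_iff.1 hy _ hop ⟨hyO, hk⟩
      refine ⟨z, hzO, ?_⟩
      rcases hzW with rfl | ⟨i, rfl⟩
      · exact absurd rfl hzk
      · refine ⟨i, ?_, rfl⟩
        by_contra hcon
        exact hzk (vv_one.2 hcon)
    rw [(closed_VV ι hι k).closure_eq] at h3
    obtain ⟨i, _, hi⟩ := h3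
    exact ⟨i, hi⟩

end partC

section partD

variable {Ω : Type} [LinearOrder Ω] [WellFoundedLT Ω] {Z : Type} [TopologicalSpace Z]

/-- the set of points of the first kind -/
def AA (ι : Ω → (ℕ → Bool)) (j : Z → (II Ω → ℝ)) : Set Z := {z | ∃ α : Ω, j z = vv ι (Sum.inl α)}

omit [WellFoundedLT Ω] in
theorem infty_mem (hΩ : ∀ β : Ω, (Set.Iic β).Countable) (hunc : ¬ (Set.univ : Set Ω).Countable)
    (ι : Ω → (ℕ → Bool)) (j : Z → (II Ω → ℝ)) (hj : IsEmbedding j) (hrange : Set.range j = WW ι)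
    (z : Z) (hz : j z = fun _ => 1) : z ∈ closure (AA ι j) := by
  classical
  rw [hj.closure_eq_preimage_closure_image]
  show j z ∈ closure (j '' AA ι j)
  rw [hz, mem_closure_iff]
  intro O hO h1
  obtain ⟨F, w, hw, hF⟩ := isOpen_pi_iff.1 hO _ h1
  obtain ⟨α, hα⟩ := exists_bound hΩ hunc {β : Ω | (Sum.inl β : II Ω) ∈ F} (by
    have : {β : Ω | (Sum.inl β : II Ω) ∈ F}.Finite :=
      Set.Finite.preimage Sum.inl_injective.injOn F.finite_toSet
    exact this.countable)
  refine ⟨vv ι (Sum.inl α), hF ?_, ?_⟩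
  · intro k hk
    have : vv ι (Sum.inl α) k = 1 := by
      rw [vv_one]
      rcases k with β | k
      · intro h
        exact absurd (mem_inl.1 h) (not_le.2 (hα β hk))
      · exact mem_inl'
    rw [this]
    exact (hw k hk).2
  · obtain ⟨z', hz'⟩ : vv ι (Sum.inl α) ∈ Set.range j := by
      rw [hrange]; exact Or.inr ⟨_, rfl⟩
    exact ⟨z', ⟨α, hz'⟩, hz'⟩

theorem bounded_sub (hΩ : ∀ β : Ω, (Set.Iic β).Countable) (hunc : ¬ (Set.univ : Set Ω).Countable)
    (ι : Ω → (ℕ → Bool)) (j : Z → (II Ω → ℝ)) (A' : Set Z) (hA : A' ⊆ AA ι j) (hc : A'.Countable) :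
    ∃ β : Ω, ∀ z ∈ A', j z ∈ vv ι '' VV ι (Sum.inl β) := by
  have hne : Nonempty Ω := by
    by_contra hcon
    rw [not_nonempty_iff] at hcon
    exact hunc (Set.toFinite _).countable
  choose! α hα using fun (z : Z) (hz : z ∈ AA ι j) => hz
  obtain ⟨β, hβ⟩ := exists_bound hΩ hunc (α '' A') (hc.image α)
  refine ⟨β, fun z hz => ?_⟩
  rw [hα z (hA hz)]
  exact ⟨_, mem_inl.2 (hβ _ ⟨z, hz, rfl⟩).le, rfl⟩

theorem not_tight (hΩ : ∀ β : Ω, (Set.Iic β).Countable) (hunc : ¬ (Set.univ : Set Ω).Countable)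
    (ι : Ω → (ℕ → Bool)) (hι : Function.Injective ι) (j : Z → (II Ω → ℝ)) (hj : IsEmbedding j)
    (hrange : Set.range j = WW ι) : ¬ CountablyTight Z := by
  intro H
  obtain ⟨z, hz⟩ : (fun _ => 1) ∈ Set.range j := by rw [hrange]; exact Or.inl rfl
  obtain ⟨A', hA', hc, hcl⟩ := H (AA ι j) z (infty_mem hΩ hunc ι j hj hrange z hz)
  obtain ⟨β, hβ⟩ := bounded_sub hΩ hunc ι j A' hA' hc
  have h1 : closure A' ⊆ j ⁻¹' (vv ι '' VV ι (Sum.inl β)) :=
    closure_minimal (fun z hz => hβ z hz) ((closed_VV ι hι _).preimage hj.continuous)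
  obtain ⟨i, hi, h2⟩ := h1 hcl
  rw [hz] at h2
  have h3 := congrFun h2 (Sum.inl β)
  rw [vv_zero.2 hi] at h3
  exact zero_ne_one h3

theorem not_sequential (hΩ : ∀ β : Ω, (Set.Iic β).Countable) (hunc : ¬ (Set.univ : Set Ω).Countable)
    (ι : Ω → (ℕ → Bool)) (hι : Function.Injective ι) (j : Z → (II Ω → ℝ)) (hj : IsEmbedding j)
    (hrange : Set.range j = WW ι) : ¬ Sequential Z := by
  intro H
  obtain ⟨z, hz⟩ : (fun _ => 1) ∈ Set.range j := by rw [hrange]; exact Or.inl rfl
  have hcl : IsClosed (AA ι j) := by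
    apply H
    intro x z hx hlim
    obtain ⟨β, hβ⟩ := bounded_sub hΩ hunc ι j (Set.range x) (by rintro _ ⟨n, rfl⟩; exact hx n)
      (Set.countable_range x)
    have h1 : closure (Set.range x) ⊆ j ⁻¹' (vv ι '' VV ι (Sum.inl β)) :=
      closure_minimal (fun z hz => hβ z hz) ((closed_VV ι hι _).preimage hj.continuous)
    have h2 : z ∈ closure (Set.range x) :=
      mem_closure_of_tendsto hlim (Filter.Eventually.of_forall fun n => ⟨n, rfl⟩)
    obtain ⟨_, ⟨α, _, rfl⟩, h3⟩ := h1 h2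
    exact ⟨α, h3.symm⟩
  have h1 := infty_mem hΩ hunc ι j hj hrange z hz
  rw [hcl.closure_eq] at h1
  obtain ⟨α, hα⟩ := h1
  rw [hz] at hα
  have h3 := congrFun hα (Sum.inl α)
  rw [vv_zero.2 (mem_inl.2 le_rfl)] at h3
  exact one_ne_zero h3

omit [WellFoundedLT Ω] in
theorem not_monolithic (hunc : ¬ (Set.univ : Set Ω).Countable)
    (ι : Ω → (ℕ → Bool)) (hι : Function.Injective ι) (j : Z → (II Ω → ℝ)) (hj : IsEmbedding j)
    (hrange : Set.range j = WW ι) : ¬ Monolithic Z := by
  intro H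
  have hex : ∀ i : II Ω, ∃ z : Z, j z = vv ι i := by
    intro i
    have : vv ι i ∈ Set.range j := by rw [hrange]; exact Or.inr ⟨i, rfl⟩
    exact this
  choose p hp using hex
  let q : List Bool → Z := fun l => p (Sum.inr (Sum.inl l))
  have hq : Function.Injective q := by
    intro l l' h
    have h1 : vv ι (Sum.inr (Sum.inl l)) = vv ι (Sum.inr (Sum.inl l')) := by
      rw [← hp, ← hp]
      exact congrArg j h
    have h2 := congrFun h1 (Sum.inr (Sum.inl l'))
    have h3 : (Sum.inr (Sum.inl l') : II Ω) ∈ VV ι (Sum.inr (Sum.inl l')) := rfl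
    rw [vv_zero.2 h3] at h2
    have h4 : (Sum.inr (Sum.inl l) : II Ω) = Sum.inr (Sum.inl l') := vv_zero.1 h2
    exact Sum.inl_injective (Sum.inr_injective h4)
  obtain ⟨N, hN, hcard⟩ := H (Set.range q) (Set.infinite_range_of_injective hq)
  have hNc : N.Countable := by
    rw [← Cardinal.le_aleph0_iff_set_countable]
    refine hcard.trans ?_
    rw [Cardinal.le_aleph0_iff_set_countable]
    exact Set.countable_range q
  have hmem : ∀ ξ : Ω, p (Sum.inr (Sum.inr ξ)) ∈ closure (Set.range q) := by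
    intro ξ
    rw [hj.closure_eq_preimage_closure_image]
    show j (p (Sum.inr (Sum.inr ξ))) ∈ closure (j '' Set.range q)
    rw [hp]
    refine mem_closure_of_tendsto (tend_pre ι hι ξ) (Filter.Eventually.of_forall fun n => ?_)
    exact ⟨q (pre (ι ξ) n), ⟨_, rfl⟩, hp _⟩
  have key : ∀ ξ : Ω, ∃ M ∈ N, (⟨p (Sum.inr (Sum.inr ξ)), hmem ξ⟩ : closure (Set.range q)) ∈ M ∧
      M ⊆ {z : closure (Set.range q) | j z.1 (Sum.inr (Sum.inr ξ)) < (1/2 : ℝ)} := by
    intro ξ
    apply hN
    · exact isOpen_lt ((continuous_apply _).comp (hj.continuous.comp continuous_subtype_val)) continuous_const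
    · show j (p (Sum.inr (Sum.inr ξ))) (Sum.inr (Sum.inr ξ)) < (1/2 : ℝ)
      rw [hp, vv_zero.2 (Set.mem_insert _ _)]
      norm_num
  choose M hMN hm hs using key
  have hinj : Function.Injective (fun ξ => (⟨M ξ, hMN ξ⟩ : N)) := by
    intro ξ η h
    have e : M ξ = M η := congrArg Subtype.val h
    have h1 := hs η (e ▸ hm ξ)
    have h2 : j (p (Sum.inr (Sum.inr ξ))) (Sum.inr (Sum.inr η)) < (1/2 : ℝ) := h1
    rw [hp] at h2
    rcases vv_01 ι (Sum.inr (Sum.inr ξ)) (Sum.inr (Sum.inr η)) with h3 | h3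
    · rcases vv_zero.1 h3 with h4 | ⟨n, h4⟩
      · exact Sum.inr_injective (Sum.inr_injective h4)
      · cases h4
    · rw [h3] at h2; norm_num at h2
  have : Countable N := hNc.to_subtype
  have : Countable Ω := hinj.countable
  exact hunc Set.countable_univ

end partD

/-- There are an Eberlein compact space `X`, a dense subspace `S` of `C_p(X)`, a Tychonoff continuous
image `Y` of `S` and a compact set `B ⊆ Y` such that `B` does not have countable tightness, is not
sequential and is not monolithic. -/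
theorem result : ∃ (X : Type) (_ : TopologicalSpace X) (S : Set (Cp X)) (Y : Type)
    (_ : TopologicalSpace Y) (φ : S → Y) (B : Set Y),
    EberleinCompact X ∧ Dense S ∧ T35Space Y ∧ Continuous φ ∧ Function.Surjective φ ∧ IsCompact B ∧
    ¬ CountablyTight B ∧ ¬ Sequential B ∧ ¬ Monolithic B := by
  classical
  obtain ⟨Ω, _, _, hΩ, hcard⟩ := exists_Om
  have hunc : ¬ (Set.univ : Set Ω).Countable := by
    intro h
    have h1 : Cardinal.mk Ω ≤ Cardinal.aleph0 := by
      rw [Cardinal.mk_le_aleph0_iff]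
      exact Set.countable_univ_iff.1 h
    rw [hcard] at h1
    exact absurd h1 (not_le.2 Cardinal.aleph0_lt_aleph_one)
  -- the two injections
  obtain ⟨ι, hι⟩ : ∃ ι : Ω → (ℕ → Bool), Function.Injective ι := by
    have : Cardinal.mk Ω ≤ Cardinal.mk (ℕ → Bool) := by
      rw [hcard]
      have h2 : Cardinal.mk (ℕ → Bool) = Cardinal.continuum := by simp
      rw [h2]
      exact Cardinal.aleph_one_le_continuum
    obtain ⟨e⟩ := this
    exact ⟨e, e.injective⟩
  obtain ⟨r, hr⟩ : ∃ r : II Ω → Ω, Function.Injective r := by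
    have : Cardinal.mk (II Ω) ≤ Cardinal.mk Ω := by
      have h0 : Cardinal.aleph0 ≤ Cardinal.aleph 1 := Cardinal.aleph0_le_aleph 1
      have h1 : Cardinal.mk (II Ω) = Cardinal.mk Ω + (Cardinal.mk (List Bool) + Cardinal.mk Ω) := by
        simp [II]
      rw [h1, hcard]
      have h2 : Cardinal.mk (List Bool) ≤ Cardinal.aleph 1 := (Cardinal.mk_le_aleph0).trans h0
      refine Cardinal.add_le_of_le h0 le_rfl (Cardinal.add_le_of_le h0 h2 le_rfl)
    obtain ⟨e⟩ := this
    exact ⟨e, e.injective⟩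
  obtain ⟨e, he⟩ : ∃ e : Ω → Ω → ℕ, ∀ γ : Ω, Set.InjOn (e γ) (Set.Iic γ) := by
    have h : ∀ γ : Ω, ∃ f : Ω → ℕ, Set.InjOn f (Set.Iic γ) := by
      intro γ
      exact Set.countable_iff_exists_injOn.1 (hΩ γ)
    choose e he using h
    exact ⟨e, he⟩
  letI tD : TopologicalSpace (Ω ⊕ II Ω) := ⊥
  haveI : DiscreteTopology (Ω ⊕ II Ω) := ⟨rfl⟩
  let S : Set (Cp (OnePoint (Ω ⊕ II Ω))) := SD e r
  choose F hFc hF0 hF1 hFt using fun k : II Ω => exists_F hΩ hunc e r hr (VV ι k) (VV_countable hΩ ι k)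
  let Φ : S → (II Ω → ℝ) := fun f k => F k f
  have hΦ : Continuous Φ := continuous_pi fun k => hFc k
  let si : II Ω → S := fun i => ⟨⟨ss e r i, ss_cont e he r i⟩, Or.inr (Or.inl ⟨i, rfl⟩)⟩
  let s1 : S := ⟨⟨fun _ => 1, continuous_const⟩, Or.inr (Or.inr rfl)⟩
  have hsi : ∀ i, Φ (si i) = vv ι i := by
    intro i
    funext k
    by_cases h : i ∈ VV ι k
    · rw [vv_zero.2 h]
      exact hF0 k (si i) i rfl h
    · rw [vv_one.2 h]
      exact hF1 k (si i) i rfl h
  have hs1 : Φ s1 = fun _ => 1 := by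
    funext k
    exact hFt k s1 rfl
  have hWsub : WW ι ⊆ Set.range Φ := by
    rintro _ (rfl | ⟨i, rfl⟩)
    · exact ⟨s1, hs1⟩
    · exact ⟨si i, hsi i⟩
  let Y : Type := Set.range Φ
  let B : Set Y := {y | y.1 ∈ WW ι}
  have hBimg : Subtype.val '' B = WW ι := by
    ext y
    constructor
    · rintro ⟨y, hy, rfl⟩; exact hy
    · intro hy
      exact ⟨⟨y, hWsub hy⟩, hy, rfl⟩
  have hBc : IsCompact B := by
    rw [Topology.IsEmbedding.subtypeVal.isCompact_iff, hBimg]
    exact WW_compact ι hι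
  let j : B → (II Ω → ℝ) := fun b => b.1.1
  have hj : IsEmbedding j := IsEmbedding.subtypeVal.comp IsEmbedding.subtypeVal
  have hrange : Set.range j = WW ι := by
    rw [← hBimg]
    ext y
    constructor
    · rintro ⟨b, rfl⟩
      exact ⟨b.1, b.2, rfl⟩
    · rintro ⟨b, hb, rfl⟩
      exact ⟨⟨b, hb⟩, rfl⟩
  refine ⟨OnePoint (Ω ⊕ II Ω), inferInstance, S, Y, inferInstance, Set.rangeFactorization Φ, B,
    eberlein_OP _, SD_dense e r, inferInstance, hΦ.subtype_mk _, Set.rangeFactorization_surjective,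
    hBc, not_tight hΩ hunc ι hι j hj hrange, not_sequential hΩ hunc ι hι j hj hrange,
    not_monolithic hunc ι hι j hj hrange⟩

end Pool.Agent.Results.MP_570618_gt.EberleinImages
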